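import Pool.Agent.H50.ELT.Cheap

/-!
MP_a10695_co: splitting off a clique.
-/

namespace Pool.Agent.Results.MP_a10695_co.CliqueSplitting

/-- Let `G` be a finite graph with `χ(G) = a + b - 1`, `a, b ≥ 2`, and let `w` be a vertex such that
the subgraph induced by the vertices different from `w` and not adjacent to `w` contains no clique
with `a + 1` vertices.  If some clique `K` with `a` vertices does not contain `w` and is not contained
in the neighbourhood of `w`, then there are a clique `S` with `a` vertices and a set `T` disjoint from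
it with `χ(G[S]) = a` and `χ(G[T]) = b`. -/
theorem result (V : Type) [Fintype V] (G : SimpleGraph V) (a b : ℕ) (ha : 2 ≤ a) (hb : 2 ≤ b)
    (hχ : G.chromaticNumber = ((a + b - 1 : ℕ) : ℕ∞)) (w : V)
    (hw : ∀ Q : Finset V, G.IsNClique (a + 1) Q → ∃ v ∈ Q, v = w ∨ G.Adj w v)
    (K : Finset V) (hK : G.IsNClique a K) (hwK : w ∉ K) (hn : ∃ v ∈ K, ¬ G.Adj w v) :
    ∃ (S : Finset V) (T : Set V), G.IsNClique a S ∧ Disjoint (S : Set V) T ∧
      (G.induce (S : Set V)).chromaticNumber = (a : ℕ∞) ∧
      (G.induce T).chromaticNumber = (b : ℕ∞) := by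
  have hG : ¬ G.Colorable (a + b - 2) := by
    intro hc
    have := SimpleGraph.chromaticNumber_le_iff_colorable.2 hc
    rw [hχ] at this
    have : a + b - 1 ≤ a + b - 2 := by exact_mod_cast this
    omega
  exact Pool.Agent.H50.ELT.split_local_strong G a b (by omega) hb w hw K hK hwK hn hG

end Pool.Agent.Results.MP_a10695_co.CliqueSplitting
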