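import Pool.Agent.H39.EAG.CLQ
import Pool.Agent.H60.EAG.CHC
import Pool.Agent.H68.EAG.CHA
import Pool.Agent.H68.EAG.CHB

/-!
# MP_a10695_co: pairs `(a, b)` and cliques with few common neighbours

Let `χ(G) = a + b - 1`, let `Q` be a clique with fewer than `a` vertices, and let `L` be a set of
vertices `y`, adjacent to all vertices of `Q`, such that `Q + y` has at most `χ(G) - |Q| - 2` common
neighbours. If `χ(G[L]) ≥ a - |Q|`, then there are disjoint `S`, `T` with `χ(G[S]) = a` and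
`χ(G[T]) = b`.
-/

set_option autoImplicit false

namespace Pool.Agent.Results.MP_a10695_co.CommonNeighbours

open Pool.Agent.H39.EAG

theorem hCHA : T_CHA := Pool.Agent.H68.EAG.pf_CHA
theorem hCHB : T_CHB := Pool.Agent.H68.EAG.pf_CHB hCHA
theorem hCHC : T_CHC := Pool.Agent.H60.EAG.pf_CHC hCHA
theorem hCLQ : T_CLQ := pf_CLQ hCHA hCHB

/-- Let `χ(G) = a + b - 1`, `a, b ≥ 2`, let `Q` be a clique with fewer than `a` vertices and `L` a
set of vertices `y`, adjacent to all vertices of `Q`, such that at most `χ(G) - |Q| - 2` vertices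
are adjacent to `y` and to all vertices of `Q`. If `χ(G[L]) ≥ a - |Q|`, then there are disjoint `S`,
`T` with `χ(G[S]) = a` and `χ(G[T]) = b`. -/
theorem result : ∀ (V : Type) [Fintype V] (G : SimpleGraph V) (a b : ℕ) (Q : Finset V) (L : Set V),
    2 ≤ a → 2 ≤ b → G.chromaticNumber = ((a + b - 1 : ℕ) : ℕ∞) → G.IsClique (Q : Set V) →
    Q.card < a →
    (∀ y ∈ L, (∀ x ∈ Q, G.Adj x y) ∧
      {v | G.Adj y v ∧ ∀ x ∈ Q, G.Adj x v}.ncard + Q.card + 2 ≤ a + b - 1) →
    ((a - Q.card : ℕ) : ℕ∞) ≤ (G.induce L).chromaticNumber →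
    ∃ S T : Set V, Disjoint S T ∧ (G.induce S).chromaticNumber = (a : ℕ∞) ∧
      (G.induce T).chromaticNumber = (b : ℕ∞) := by
  classical
  intro V _ G a b Q L ha hb ht hQ hQa hL hc
  obtain ⟨c1, c2⟩ := hCHC V G
  have hu : chi G Finset.univ = a + b - 1 := by
    rw [c2] at ht
    exact_mod_cast ht
  have hLc : a - Q.card ≤ chi G L.toFinset := by
    have h1 := c1 L.toFinset
    rw [Set.coe_toFinset] at h1
    rw [h1] at hc
    exact_mod_cast hc
  obtain ⟨S, T, hST, hS, hT⟩ := hCLQ V G Q a b L.toFinset ha hb hu hQ hQa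
    (fun y hy => by
      have h1 := hL y (Set.mem_toFinset.1 hy)
      refine ⟨h1.1, ?_⟩
      have e : (cn G (insert y Q)).card = {v | G.Adj y v ∧ ∀ x ∈ Q, G.Adj x v}.ncard := by
        rw [← Set.ncard_coe_finset]
        congr 1
        ext z
        simp [cn]
      rw [e, hu]
      exact h1.2) hLc
  refine ⟨S, T, Finset.disjoint_coe.2 hST, ?_, ?_⟩
  · rw [c1, hS]
  · rw [c1, hT]

end Pool.Agent.Results.MP_a10695_co.CommonNeighbours
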